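import Mathlib

/-!
Definitions: asymptotic property C and locally polynomial growth.
-/

set_option autoImplicit false

namespace Pool.Agent.Helper75.Apc

open Pointwise

/-- The data asked for by asymptotic property C for one sequence `R 0, R 1, ...` and one number `n`
of families (`X` has asymptotic property C if for every increasing sequence `R` of positive reals
`HasFamilies X R n` holds for some `n`): uniformly bounded families `U 0, ..., U (n - 1)` covering `X` such that `U i` is
`R i`-disjoint (the infimum of the distances between two distinct members is larger than `R i`). -/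
def HasFamilies (X : Type*) [MetricSpace X] (R : ℕ → ℝ) (n : ℕ) : Prop :=
  ∃ U : Fin n → Set (Set X),
    (∀ i, ∃ D : ℝ, ∀ A ∈ U i, ∀ x ∈ A, ∀ y ∈ A, dist x y ≤ D) ∧
    (∀ i, ∀ A ∈ U i, ∀ B ∈ U i, A ≠ B →
      ∃ δ : ℝ, R i < δ ∧ ∀ x ∈ A, ∀ y ∈ B, δ ≤ dist x y) ∧
    (∀ x : X, ∃ i, ∃ A ∈ U i, x ∈ A)

/-- Every finite subset `T` of the group has polynomial growth: `T ^ k` has at most
`C * (k + 1) ^ d` elements. (Equivalently: every finitely generated subgroup has polynomial
growth.) -/
def LocallyPolynomialGrowth (G : Type*) [Group G] : Prop :=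
  ∀ T : Finset G, ∃ C d : ℕ, ∀ k : ℕ, ((T : Set G) ^ k).ncard ≤ C * (k + 1) ^ d

end Pool.Agent.Helper75.Apc
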