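import Pool.Agent.Helper75.Apc.Count

/-!
Cutting a group at scale `S` along the cosets of a subgroup of polynomial growth generated by `T`:
the whole group is a union of `d + 1` sets, the first one has bounded `T`-components and the other
ones have bounded `S`-components.
-/

set_option autoImplicit false

namespace Pool.Agent.Helper75.Apc

open Finset Function Pointwise Relation

section doubling

/-- a function of polynomial growth is doubling at arbitrarily large scales -/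
lemma exists_doubling (f : ℕ → ℕ) (C d : ℕ) (hpos : ∀ k, 1 ≤ f k)
    (hpoly : ∀ k, f k ≤ C * (k + 1) ^ d) (m : ℕ) (hm : 1 ≤ m) :
    ∃ M, m ≤ M ∧ f (5 * M) ≤ 2 * 5 ^ d * f M := by
  by_contra hcon
  push Not at hcon
  have hgrow : ∀ i : ℕ, (2 * 5 ^ d) ^ i ≤ f (5 ^ i * m) := by
    intro i
    induction i with
    | zero => simpa using hpos m
    | succ i ih =>
      have h1 : m ≤ 5 ^ i * m := Nat.le_mul_of_pos_left m (pow_pos (by norm_num) i)
      have h2 := hcon (5 ^ i * m) h1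
      calc (2 * 5 ^ d) ^ (i + 1) = (2 * 5 ^ d) * (2 * 5 ^ d) ^ i := by ring
        _ ≤ (2 * 5 ^ d) * f (5 ^ i * m) := Nat.mul_le_mul_left _ ih
        _ ≤ f (5 * (5 ^ i * m)) := h2.le
        _ = f (5 ^ (i + 1) * m) := by congr 1; ring
  -- compare with the upper bound
  have hup : ∀ i : ℕ, 2 ^ i ≤ C * (2 * m) ^ d := by
    intro i
    have h1 : f (5 ^ i * m) ≤ C * (2 * m) ^ d * (5 ^ d) ^ i := by
      calc f (5 ^ i * m) ≤ C * (5 ^ i * m + 1) ^ d := hpoly _
        _ ≤ C * (2 * m * 5 ^ i) ^ d := by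
          refine Nat.mul_le_mul_left _ (Nat.pow_le_pow_left ?_ d)
          have : 1 ≤ 5 ^ i * m := Nat.mul_pos (pow_pos (by norm_num) i) hm
          nlinarith
        _ = C * (2 * m) ^ d * (5 ^ d) ^ i := by
          rw [mul_pow, ← pow_mul, ← pow_mul, mul_comm i d]; ring
    have h2 := (hgrow i).trans h1
    rw [mul_pow] at h2
    exact Nat.le_of_mul_le_mul_right h2 (pow_pos (pow_pos (by norm_num) d) i)
  have := hup (C * (2 * m) ^ d)
  exact absurd this (not_le.2 Nat.lt_two_pow_self)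

end doubling

section group

variable {G : Type*} [Group G] [DecidableEq G]

lemma inv_mem_pow {T : Finset G} (hT : ∀ t ∈ T, t⁻¹ ∈ T) (k : ℕ) : ∀ x ∈ T ^ k, x⁻¹ ∈ T ^ k := by
  intro x hx
  have hTT : T⁻¹ = T := by
    ext y
    rw [mem_inv']
    constructor
    · intro h
      have := hT _ h
      rwa [inv_inv] at this
    · exact hT y
  have : x⁻¹ ∈ (T ^ k)⁻¹ := inv_mem_inv hx
  rwa [← inv_pow, hTT] at this

lemma pow_mono {T : Finset G} (h1 : (1 : G) ∈ T) {k l : ℕ} (h : k ≤ l) : T ^ k ⊆ T ^ l :=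
  pow_subset_pow_right h1 h

lemma mul_mem_pow {T : Finset G} {k l m : ℕ} (h : k + l = m) {x y : G} (hx : x ∈ T ^ k)
    (hy : y ∈ T ^ l) : x * y ∈ T ^ m := by
  rw [← h, pow_add]
  exact mul_mem_mul hx hy

omit [DecidableEq G] in
/-- maximal separated sets -/
lemma exists_net (B : Finset G) (h1 : (1 : G) ∈ B) (hB : ∀ b ∈ B, b⁻¹ ∈ B) :
    ∃ N : Set G, (∀ c ∈ N, ∀ c' ∈ N, c ≠ c' → c⁻¹ * c' ∉ B) ∧ ∀ x, ∃ c ∈ N, c⁻¹ * x ∈ B := by
  obtain ⟨N, hN⟩ := zorn_subset {N : Set G | ∀ c ∈ N, ∀ c' ∈ N, c ≠ c' → c⁻¹ * c' ∉ B} (by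
    intro c hc hchain
    refine ⟨⋃₀ c, ?_, fun s hs => Set.subset_sUnion_of_mem hs⟩
    rintro x ⟨s, hs, hxs⟩ y ⟨t, ht, hyt⟩ hxy
    rcases hchain.total hs ht with h | h
    · exact hc ht x (h hxs) y hyt hxy
    · exact hc hs x hxs y (h hyt) hxy)
  refine ⟨N, hN.1, fun x => ?_⟩
  by_contra hcon
  push Not at hcon
  have hxN : x ∉ N := by
    intro hx
    exact hcon x hx (by simpa using h1)
  have hins : insert x N ∈ {N : Set G | ∀ c ∈ N, ∀ c' ∈ N, c ≠ c' → c⁻¹ * c' ∉ B} := by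
    intro c hc c' hc' hne
    rcases hc with rfl | hc
    · rcases hc' with rfl | hc'
      · exact absurd rfl hne
      · intro h
        apply hcon c' hc'
        have := hB _ h
        rwa [mul_inv_rev, inv_inv] at this
    · rcases hc' with rfl | hc'
      · exact hcon c hc
      · exact hN.1 c hc c' hc' hne
  exact hxN (hN.2 hins (Set.subset_insert x N) (Set.mem_insert x N))

/-- packing bound -/
lemma net_card_le {T : Finset G} (h1 : (1 : G) ∈ T) (hT : ∀ t ∈ T, t⁻¹ ∈ T) (M K : ℕ)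
    (hK : (T ^ (5 * M)).card ≤ K * (T ^ M).card) (N : Set G)
    (hN : ∀ c ∈ N, ∀ c' ∈ N, c ≠ c' → c⁻¹ * c' ∉ T ^ (2 * M)) (z : G) (E : Finset G)
    (hE : ∀ c ∈ E, c ∈ N ∧ c⁻¹ * z ∈ T ^ (4 * M)) : E.card ≤ K := by
  have hpos : 0 < (T ^ M).card := card_pos.2 ⟨1, one_mem_pow h1⟩
  have hsub : (E ×ˢ (T ^ M)).card ≤ (T ^ (5 * M)).card := by
    refine card_le_card_of_injOn (fun p => z⁻¹ * (p.1 * p.2)) ?_ ?_
    · rintro ⟨c, t⟩ hct
      simp only [coe_product, Set.mem_prod, mem_coe] at hct ⊢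
      have h2 := inv_mem_pow hT _ _ (hE c hct.1).2
      rw [mul_inv_rev, inv_inv] at h2
      have h3 := mul_mem_pow (T := T) (k := 4 * M) (l := M) (m := 5 * M) (by ring) h2 hct.2
      rwa [mul_assoc] at h3
    · rintro ⟨c, t⟩ hct ⟨c', t'⟩ hct' heq
      simp only [coe_product, Set.mem_prod, mem_coe] at hct hct' heq
      have h4 : c * t = c' * t' := mul_left_cancel heq
      have h5 : c = c' := by
        by_contra hne
        apply hN c (hE c hct.1).1 c' (hE c' hct'.1).1 hne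
        have h6 : c⁻¹ * c' = t * t'⁻¹ := by
          rw [inv_mul_eq_iff_eq_mul, ← mul_assoc, h4, mul_assoc, mul_inv_cancel, mul_one]
        rw [h6]
        exact mul_mem_pow (by ring) hct.2 (inv_mem_pow hT _ _ hct'.2)
      subst h5
      rw [mul_left_cancel h4]
  rw [card_product] at hsub
  exact Nat.le_of_mul_le_mul_right (hsub.trans hK) hpos

/-- the shell of radius `r` about `c` -/
def Shell (T : Finset G) (c : G) (r : ℕ) : Set G :=
  {y | c⁻¹ * y ∈ T ^ r ∧ c⁻¹ * y ∉ T ^ (r - 1)}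

lemma shell_unique {T : Finset G} (h1 : (1 : G) ∈ T) {c y : G} {r r' : ℕ}
    (h : y ∈ Shell T c r) (h' : y ∈ Shell T c r') : r = r' := by
  rcases lt_trichotomy r r' with hlt | heq | hgt
  · exact absurd (pow_mono h1 (by omega : r ≤ r' - 1) h.1) h'.2
  · exact heq
  · exact absurd (pow_mono h1 (by omega : r' ≤ r - 1) h'.1) h.2

/-- `x` is within `S ^ j` of the shell about `c` of radius `r c` -/
def Near (T S : Finset G) (r : G → ℕ) (j : ℕ) (x c : G) : Prop :=
  ∃ s ∈ S ^ j, x * s ∈ Shell T c (r c)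

lemma near_mono {T S : Finset G} (h1S : (1 : G) ∈ S) {r : G → ℕ} {j k : ℕ} (h : j ≤ k) {x c : G}
    (hx : Near T S r j x c) : Near T S r k x c := by
  obtain ⟨s, hs, hxs⟩ := hx
  exact ⟨s, pow_mono h1S h hs, hxs⟩

lemma near_step {T S : Finset G} (hS : ∀ s ∈ S, s⁻¹ ∈ S) {r : G → ℕ} {j : ℕ} {x y c : G}
    (hxy : x⁻¹ * y ∈ S) (hx : Near T S r j x c) : Near T S r (j + 1) y c := by
  obtain ⟨s, hs, hxs⟩ := hx
  refine ⟨(y⁻¹ * x) * s, ?_, ?_⟩
  · rw [pow_succ']
    refine mul_mem_mul ?_ hs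
    have := hS _ hxy
    rwa [mul_inv_rev, inv_inv] at this
  · have : y * (y⁻¹ * x * s) = x * s := by group
    rwa [this]

open Classical in
/-- choice of radii such that no point is near `d + 1` shells -/
theorem exists_radii (T S : Finset G) (h1T : (1 : G) ∈ T)
    (hT : ∀ t ∈ T, t⁻¹ ∈ T) (C d : ℕ)
    (hpoly : ∀ k, (T ^ k).card ≤ C * (k + 1) ^ d) :
    ∃ (L : ℕ) (N : Set G) (r : G → ℕ) (Ctr : G → Finset G),
      (∀ x, ∃ c ∈ N, c⁻¹ * x ∈ T ^ L) ∧ (∀ c, L + 1 ≤ r c ∧ r c ≤ 2 * L) ∧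
      (∀ x c, c ∈ N → Near T S r (d + 1) x c → c ∈ Ctr x) ∧
      (∀ x, ((Ctr x).filter fun c => Near T S r (d + 1) x c).card < d + 1) ∧
      (∀ x, ∀ c ∈ Ctr x, c ∈ N) := by
  set s := (S ^ (d + 1)).card with hs
  set K := 2 * 5 ^ d with hK
  set Q := s * K with hQ
  set m := C * 5 ^ d * s * Q ^ d * s ^ (d + 1) with hm
  obtain ⟨M, hM, hdoub⟩ := exists_doubling (fun k => (T ^ k).card) C d
    (fun k => card_pos.2 ⟨1, one_mem_pow h1T⟩) hpoly (m + 1) (by omega)
  set L := 2 * M with hL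
  have hMpos : 1 ≤ M := by omega
  obtain ⟨N, hNsep, hNcov⟩ := exists_net (T ^ L) (one_mem_pow h1T) (inv_mem_pow hT L)
  let Ctr : G → Finset G := fun x =>
    (((S ^ (d + 1)) ×ˢ (T ^ (4 * M))).image fun p => x * p.1 * p.2⁻¹).filter fun c => c ∈ N
  have hCtr : ∀ x c, c ∈ Ctr x ↔ c ∈ N ∧ ∃ s ∈ S ^ (d + 1), c⁻¹ * (x * s) ∈ T ^ (4 * M) := by
    intro x c
    simp only [Ctr, mem_filter, mem_image, mem_product, Prod.exists]
    constructor
    · rintro ⟨⟨a, b, ⟨ha, hb⟩, rfl⟩, hc⟩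
      refine ⟨hc, a, ha, ?_⟩
      have : (x * a * b⁻¹)⁻¹ * (x * a) = b := by group
      rwa [this]
    · rintro ⟨hc, a, ha, hb⟩
      refine ⟨⟨a, c⁻¹ * (x * a), ⟨ha, hb⟩, ?_⟩, hc⟩
      group
  let Wd : G → G → Finset (Fin L) := fun x c =>
    univ.filter fun k => ∃ s ∈ S ^ (d + 1), x * s ∈ Shell T c (L + 1 + k.1)
  let Pts : G → Finset G := fun c => ((T ^ (4 * M)) ×ˢ (S ^ (d + 1))).image fun p => c * p.1 * p.2⁻¹
  have hQ' : ∀ x, (Ctr x).card ≤ Q := by
    intro x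
    have hsub : Ctr x ⊆ (S ^ (d + 1)).biUnion fun s =>
        (Ctr x).filter fun c => c⁻¹ * (x * s) ∈ T ^ (4 * M) := by
      intro c hc
      obtain ⟨_, s, hs, h⟩ := (hCtr x c).1 hc
      exact mem_biUnion.2 ⟨s, hs, mem_filter.2 ⟨hc, h⟩⟩
    calc (Ctr x).card ≤ _ := card_le_card hsub
      _ ≤ ∑ s ∈ S ^ (d + 1), ((Ctr x).filter fun c => c⁻¹ * (x * s) ∈ T ^ (4 * M)).card :=
          card_biUnion_le
      _ ≤ ∑ _s ∈ S ^ (d + 1), K := by
          refine sum_le_sum fun s _ => ?_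
          refine net_card_le h1T hT M K hdoub N hNsep (x * s) _ ?_
          intro c hc
          rw [mem_filter] at hc
          exact ⟨((hCtr x c).1 hc.1).1, hc.2⟩
      _ = Q := by rw [sum_const, smul_eq_mul]
  have hI' : ∀ c, (Pts c).card ≤ C * (4 * M + 1) ^ d * s := by
    intro c
    refine card_image_le.trans ?_
    rw [card_product]
    exact Nat.mul_le_mul_right _ (hpoly _)
  have hPts' : ∀ x, ∀ c ∈ Ctr x, x ∈ Pts c := by
    intro x c hc
    obtain ⟨_, a, ha, hb⟩ := (hCtr x c).1 hc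
    refine mem_image.2 ⟨(c⁻¹ * (x * a), a), mem_product.2 ⟨hb, ha⟩, ?_⟩
    group
  have hW' : ∀ x c, (Wd x c).card ≤ s := by
    intro x c
    have hch : ∀ k : Fin L, k ∈ Wd x c → ∃ a ∈ S ^ (d + 1), x * a ∈ Shell T c (L + 1 + k.1) := by
      intro k hk
      exact (mem_filter.1 hk).2
    choose! g hg using hch
    refine card_le_card_of_injOn g (fun k hk => (hg k hk).1) ?_
    intro k hk k' hk' heq
    have h2 := (hg k hk).2
    have h3 := (hg k' hk').2
    rw [heq] at h2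
    have := shell_unique h1T h2 h3
    exact Fin.ext (by omega)
  have hnum : (C * (4 * M + 1) ^ d * s) * Q ^ (d + 1 - 1) * s ^ (d + 1) * 2 ^ (d + 1)
      ≤ L ^ (d + 1) := by
    have h4 : (4 * M + 1) ^ d ≤ (5 * M) ^ d := Nat.pow_le_pow_left (by omega) d
    calc (C * (4 * M + 1) ^ d * s) * Q ^ (d + 1 - 1) * s ^ (d + 1) * 2 ^ (d + 1)
        ≤ (C * (5 * M) ^ d * s) * Q ^ (d + 1 - 1) * s ^ (d + 1) * 2 ^ (d + 1) := by gcongr
      _ = m * M ^ d * 2 ^ (d + 1) := by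
          rw [hm, mul_pow, Nat.add_sub_cancel]; ring
      _ ≤ M * M ^ d * 2 ^ (d + 1) := by
          gcongr
          omega
      _ = L ^ (d + 1) := by rw [hL, mul_pow]; ring
  obtain ⟨f, hf⟩ := exists_assignment Ctr Wd Pts (d + 1) Q (C * (4 * M + 1) ^ d * s) s
    (by omega) hQ' hI' hPts' hW' (by omega) hnum
  refine ⟨L, N, fun c => L + 1 + (f c).1, Ctr, hNcov, ?_, ?_, ?_, ?_⟩
  · intro c
    have := (f c).2
    show L + 1 ≤ L + 1 + (f c).1 ∧ L + 1 + (f c).1 ≤ 2 * L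
    omega
  · rintro x c hc ⟨a, ha, hsh⟩
    refine (hCtr x c).2 ⟨hc, a, ha, ?_⟩
    refine pow_mono h1T ?_ hsh.1
    have := (f c).2
    show L + 1 + (f c).1 ≤ 4 * M
    omega
  · intro x
    refine lt_of_le_of_lt (card_le_card ?_) (hf x)
    intro c hc
    rw [mem_filter] at hc ⊢
    refine ⟨hc.1, mem_filter.2 ⟨mem_univ _, ?_⟩⟩
    obtain ⟨a, ha, hsh⟩ := hc.2
    exact ⟨a, ha, hsh⟩
  · intro x c hc
    exact ((hCtr x c).1 hc).1

open Classical in
/-- the decomposition into `d + 1` pieces -/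
theorem core (T S : Finset G) (h1T : (1 : G) ∈ T) (h1S : (1 : G) ∈ S)
    (hT : ∀ t ∈ T, t⁻¹ ∈ T) (hS : ∀ s ∈ S, s⁻¹ ∈ S) (C d : ℕ)
    (hpoly : ∀ k, (T ^ k).card ≤ C * (k + 1) ^ d) :
    ∃ (A : ℕ → Set G) (F : Finset G), (∀ x, ∃ j ≤ d, x ∈ A j) ∧
      (∀ x y, x ∈ A 0 → ReflTransGen (fun a b => a ∈ A 0 ∧ b ∈ A 0 ∧ a⁻¹ * b ∈ T) x y →
        x⁻¹ * y ∈ F) ∧
      (∀ j, 1 ≤ j → j ≤ d → ∀ x y, x ∈ A j →
        ReflTransGen (fun a b => a ∈ A j ∧ b ∈ A j ∧ a⁻¹ * b ∈ S) x y → x⁻¹ * y ∈ F) := by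
  obtain ⟨L, N, r, Ctr, hcov, hr, hCtr, hcard, hCtrN⟩ :=
    exists_radii T S h1T hT C d hpoly
  let NC : ℕ → G → Finset G := fun j x => (Ctr x).filter fun c => Near T S r j x c
  have hNC : ∀ j, j ≤ d + 1 → ∀ x c, c ∈ NC j x ↔ c ∈ N ∧ Near T S r j x c := by
    intro j hj x c
    simp only [NC, mem_filter]
    constructor
    · rintro ⟨h, h'⟩
      exact ⟨hCtrN x c h, h'⟩
    · rintro ⟨h, h'⟩
      exact ⟨hCtr x c h (near_mono h1S hj h'), h'⟩
  let A : ℕ → Set G := fun j => {x | j ≤ (NC j x).card ∧ (NC (j + 1) x).card ≤ j}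
  -- common bound
  let F : Finset G := (S ^ d * T ^ (2 * L)) * (T ^ (2 * L) * S ^ d)
  have hbd : ∀ c x y : G, (∃ a ∈ S ^ d, ∃ t ∈ T ^ (2 * L), x * a = c * t) →
      (∃ a ∈ S ^ d, ∃ t ∈ T ^ (2 * L), y * a = c * t) → x⁻¹ * y ∈ F := by
    rintro c x y ⟨a, ha, t, ht, hx⟩ ⟨b, hb, u, hu, hy⟩
    have hx' : x = c * t * a⁻¹ := by rw [← hx]; group
    have hy' : y = c * u * b⁻¹ := by rw [← hy]; group
    have : x⁻¹ * y = (a * t⁻¹) * (u * b⁻¹) := by rw [hx', hy']; group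
    rw [this]
    exact mul_mem_mul (mul_mem_mul ha (inv_mem_pow hT _ _ ht))
      (mul_mem_mul hu (inv_mem_pow hS _ _ hb))
  refine ⟨A, F, ?_, ?_, ?_⟩
  · -- covering
    intro x
    by_contra hcon
    push Not at hcon
    have hall : ∀ j, j ≤ d + 1 → j ≤ (NC j x).card := by
      intro j
      induction j with
      | zero => intro _; exact Nat.zero_le _
      | succ j ih =>
        intro hj
        have h1 := ih (by omega)
        have h2 := hcon j (by omega)
        by_contra h3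
        apply h2
        exact ⟨h1, by omega⟩
    have h4 := hall (d + 1) le_rfl
    have h5 := hcard x
    have h6 : (NC (d + 1) x).card < d + 1 := h5
    omega
  · -- the stratum of level 0
    intro x y hx hxy
    have hfree : ∀ z ∈ A 0, ∀ c ∈ N, z ∉ Shell T c (r c) := by
      intro z hz c hc hsh
      have h1 : (NC 1 z).card ≤ 0 := hz.2
      have h2 : c ∈ NC 1 z := (hNC 1 (by omega) z c).2
        ⟨hc, 1, by simpa using h1S, by simpa using hsh⟩
      have := card_pos.2 ⟨c, h2⟩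
      omega
    obtain ⟨c, hc, hcx⟩ := hcov x
    have hin : ∀ z, ReflTransGen (fun a b => a ∈ A 0 ∧ b ∈ A 0 ∧ a⁻¹ * b ∈ T) x z →
        c⁻¹ * z ∈ T ^ (r c - 1) := by
      intro z hz
      induction hz with
      | refl => exact pow_mono h1T (by have := (hr c).1; omega) hcx
      | tail _ hstep ih =>
        rename_i b e _
        obtain ⟨hb, he, hbe⟩ := hstep
        by_contra hcon
        apply hfree e he c hc
        refine ⟨?_, hcon⟩
        have h3 : c⁻¹ * e = (c⁻¹ * b) * (b⁻¹ * e) := by group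
        rw [h3]
        refine mul_mem_pow (k := r c - 1) (l := 1) (by have := (hr c).1; omega) ih ?_
        rwa [pow_one]
    have hto : ∀ z, ReflTransGen (fun a b => a ∈ A 0 ∧ b ∈ A 0 ∧ a⁻¹ * b ∈ T) x z →
        ∃ a ∈ S ^ d, ∃ t ∈ T ^ (2 * L), z * a = c * t := by
      intro z hz
      refine ⟨1, one_mem_pow h1S, c⁻¹ * z, ?_, by group⟩
      exact pow_mono h1T (by have := (hr c).2; omega) (hin z hz)
    exact hbd c x y (hto x ReflTransGen.refl) (hto y hxy)
  · -- the higher strata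
    intro j hj1 hjd x y hx hxy
    have hAeq : ∀ z ∈ A j, NC j z = NC (j + 1) z ∧ (NC j z).card = j := by
      intro z hz
      have hsub : NC j z ⊆ NC (j + 1) z := by
        intro c hc
        rw [hNC j (by omega)] at hc
        rw [hNC (j + 1) (by omega)]
        exact ⟨hc.1, near_mono h1S (by omega) hc.2⟩
      have h1 := card_le_card hsub
      have h2 : j ≤ (NC j z).card := hz.1
      have h3 : (NC (j + 1) z).card ≤ j := hz.2
      exact ⟨eq_of_subset_of_card_le hsub (by omega), by omega⟩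
    have hconst : ∀ z, ReflTransGen (fun a b => a ∈ A j ∧ b ∈ A j ∧ a⁻¹ * b ∈ S) x z →
        NC j z = NC j x := by
      intro z hz
      induction hz with
      | refl => rfl
      | tail _ hstep ih =>
        rename_i b e _
        obtain ⟨hb, he, hbe⟩ := hstep
        rw [← ih]
        symm
        have hsub : NC j b ⊆ NC j e := by
          intro c hc
          rw [(hAeq e he).1, hNC (j + 1) (by omega)]
          rw [hNC j (by omega)] at hc
          exact ⟨hc.1, near_step hS hbe hc.2⟩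
        exact eq_of_subset_of_card_le hsub (by rw [(hAeq e he).2, (hAeq b hb).2])
    obtain ⟨c, hc⟩ : (NC j x).Nonempty := by
      rw [← card_pos, (hAeq x hx).2]
      omega
    have hto : ∀ z, ReflTransGen (fun a b => a ∈ A j ∧ b ∈ A j ∧ a⁻¹ * b ∈ S) x z →
        ∃ a ∈ S ^ d, ∃ t ∈ T ^ (2 * L), z * a = c * t := by
      intro z hz
      have h1 : c ∈ NC j z := by rw [hconst z hz]; exact hc
      rw [hNC j (by omega)] at h1
      obtain ⟨_, a, ha, hsh⟩ := h1
      refine ⟨a, pow_mono h1S hjd ha, c⁻¹ * (z * a), ?_, by group⟩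
      exact pow_mono h1T (hr c).2 hsh.1
    exact hbd c x y (hto x ReflTransGen.refl) (hto y hxy)

end group

end Pool.Agent.Helper75.Apc
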