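import Pool.Agent.Helper75.Apc.Defs
import Pool.Agent.Helper75.Apc.Core

/-!
Direct unions of groups of locally polynomial growth have asymptotic property C.
-/

set_option autoImplicit false

namespace Pool.Agent.Helper75.Apc

open Finset Function Pointwise Relation

section comps

variable {G : Type*} [Group G]

/-- steps inside `A` by elements of `S` -/
def Step (A : Set G) (S : Finset G) (a b : G) : Prop := a ∈ A ∧ b ∈ A ∧ a⁻¹ * b ∈ S

/-- the `S`-component of `x` in `A` -/
def comp (A : Set G) (S : Finset G) (x : G) : Set G := {y | ReflTransGen (Step A S) x y}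

lemma step_symm {A : Set G} {S : Finset G} (hS : ∀ s ∈ S, s⁻¹ ∈ S) {a b : G}
    (h : Step A S a b) : Step A S b a := by
  obtain ⟨ha, hb, hab⟩ := h
  refine ⟨hb, ha, ?_⟩
  have := hS _ hab
  rwa [mul_inv_rev, inv_inv] at this

lemma chain_symm {A : Set G} {S : Finset G} (hS : ∀ s ∈ S, s⁻¹ ∈ S) {x y : G}
    (h : ReflTransGen (Step A S) x y) : ReflTransGen (Step A S) y x := by
  induction h with
  | refl => exact ReflTransGen.refl
  | tail _ hstep ih => exact ReflTransGen.head (step_symm hS hstep) ih

lemma comp_subset {A : Set G} {S : Finset G} {x : G} (hx : x ∈ A) : comp A S x ⊆ A := by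
  intro y hy
  induction hy with
  | refl => exact hx
  | tail _ h _ => exact h.2.1

lemma comp_eq_of_near {A : Set G} {S : Finset G} (hS : ∀ s ∈ S, s⁻¹ ∈ S) {x x' y y' : G}
    (hx : x ∈ A) (hx' : x' ∈ A) (hy : y ∈ comp A S x) (hy' : y' ∈ comp A S x')
    (h : y⁻¹ * y' ∈ S) : comp A S x = comp A S x' := by
  have hstep : Step A S y y' := ⟨comp_subset hx hy, comp_subset hx' hy', h⟩
  have hxx' : ReflTransGen (Step A S) x x' := (hy.tail hstep).trans (chain_symm hS hy')
  ext z
  constructor
  · intro hz
    exact (chain_symm hS hxx').trans hz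
  · intro hz
    exact hxx'.trans hz

end comps

section growth

variable {G : Type*} [Group G]

lemma poly_of_union [DecidableEq G] (H : ℕ → Subgroup G) (hmono : Monotone H)
    (hunion : ∀ g : G, ∃ n, g ∈ H n) (hpoly : ∀ n, LocallyPolynomialGrowth (H n))
    (T : Finset G) : ∃ C d : ℕ, ∀ k : ℕ, (T ^ k).card ≤ C * (k + 1) ^ d := by
  choose f hf using hunion
  set n := T.sup f with hn
  have hT : ∀ t ∈ T, t ∈ H n := fun t ht => hmono (le_sup (f := f) ht) (hf t)
  classical
  obtain ⟨C, d, h⟩ := hpoly n (T.subtype (fun t => t ∈ H n))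
  refine ⟨C, d, fun k => ?_⟩
  have himg : ((H n).subtype : H n →* G) '' ((T.subtype (fun t => t ∈ H n) : Finset (H n)) : Set (H n))
      = (T : Set G) := by
    ext t
    simp only [Set.mem_image, mem_coe, mem_subtype, Subgroup.coe_subtype, Subtype.exists,
      exists_and_left, exists_prop, exists_eq_right_right]
    constructor
    · rintro ⟨h1, h2⟩
      exact h1
    · intro h1
      exact ⟨h1, hT t h1⟩
  have h2 : (T ^ k).card = (((T.subtype (fun t => t ∈ H n) : Finset (H n)) : Set (H n)) ^ k).ncard := by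
    rw [← Set.ncard_image_of_injective _ (H n).subtype_injective, Set.image_pow, himg,
      ← coe_pow, Set.ncard_coe_finset]
  rw [h2]
  exact h k

end growth

section main

variable {G : Type*} [Group G] [MetricSpace G]

/-- the number of families depends only on a bound for the first radius -/
theorem hasFamilies (hinv : ∀ a b c : G, dist (a * b) (a * c) = dist b c)
    (hprop : ∀ r : ℝ, (Metric.closedBall (1 : G) r).Finite)
    (hpoly : ∀ T : Finset G, ∀ _ : DecidableEq G, ∃ C d : ℕ, ∀ k : ℕ,
      (T ^ k).card ≤ C * (k + 1) ^ d) (r : ℝ) :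
    ∃ n : ℕ, ∀ R : ℕ → ℝ, (∀ i, 0 < R i) → Monotone R → R 0 ≤ r → HasFamilies G R n := by
  classical
  set T : Finset G := (hprop (max r 0 + 1)).toFinset with hTdef
  have hsymm : ∀ ρ : ℝ, ∀ s ∈ (hprop ρ).toFinset, s⁻¹ ∈ (hprop ρ).toFinset := by
    intro ρ s hs
    rw [Set.Finite.mem_toFinset, Metric.mem_closedBall] at hs ⊢
    have := hinv s s⁻¹ 1
    rw [mul_inv_cancel, mul_one] at this
    rw [← this, dist_comm]
    exact hs
  have hone : ∀ ρ : ℝ, 0 ≤ ρ → (1 : G) ∈ (hprop ρ).toFinset := by
    intro ρ hρ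
    rw [Set.Finite.mem_toFinset, Metric.mem_closedBall, dist_self]
    exact hρ
  obtain ⟨C, d, hCd⟩ := hpoly T inferInstance
  refine ⟨d + 1, fun R hpos hmono hr => ?_⟩
  set S : Finset G := (hprop (R d + 1)).toFinset with hSdef
  obtain ⟨A, F, hcov, h0, hj⟩ := core T S (hone _ (by positivity))
    (hone _ (by have := hpos d; linarith)) (hsymm _) (hsymm _) C d hCd
  let P : ℕ → Finset G := fun i => if i = 0 then T else S
  have hPsymm : ∀ i, ∀ s ∈ P i, s⁻¹ ∈ P i := by
    intro i
    by_cases hi : i = 0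
    · simp only [P, hi, if_true]; exact hsymm _
    · simp only [P, hi, if_false]; exact hsymm _
  have hbd : ∀ i, i ≤ d → ∀ x y, x ∈ A i → ReflTransGen (Step (A i) (P i)) x y → x⁻¹ * y ∈ F := by
    intro i hi x y hx hxy
    by_cases hi0 : i = 0
    · subst hi0
      exact h0 x y hx hxy
    · refine hj i (by omega) hi x y hx ?_
      have : P i = S := by simp only [P, hi0, if_false]
      rw [this] at hxy
      exact hxy
  have hdist : ∀ x y : G, dist x y = dist 1 (x⁻¹ * y) := by
    intro x y
    have := hinv x⁻¹ x y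
    rw [inv_mul_cancel] at this
    exact this.symm
  refine ⟨fun i => {B | ∃ x ∈ A i, B = comp (A i) (P i) x}, ?_, ?_, ?_⟩
  · intro i
    refine ⟨∑ g ∈ F, dist 1 g, ?_⟩
    rintro B ⟨z, hz, rfl⟩ x hx y hy
    have hxA : x ∈ A i := comp_subset hz hx
    have hxy : ReflTransGen (Step (A i) (P i)) x y := (chain_symm (hPsymm i) hx).trans hy
    have hmem := hbd i (by have := i.2; omega) x y hxA hxy
    rw [hdist]
    exact single_le_sum (f := fun g => dist (1 : G) g) (fun _ _ => dist_nonneg) hmem
  · rintro i B ⟨z, hz, rfl⟩ B' ⟨z', hz', rfl⟩ hne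
    refine ⟨R i + 1, by linarith, ?_⟩
    intro x hx y hy
    by_contra hlt
    push Not at hlt
    apply hne
    refine comp_eq_of_near (hPsymm i) hz hz' hx hy ?_
    rw [hdist, dist_comm] at hlt
    by_cases hi : (i : ℕ) = 0
    · simp only [P, hi, if_true]
      rw [hTdef, Set.Finite.mem_toFinset, Metric.mem_closedBall]
      rw [hi] at hlt
      have := le_max_left r 0
      linarith
    · simp only [P, hi, if_false]
      rw [hSdef, Set.Finite.mem_toFinset, Metric.mem_closedBall]
      have hid : (i : ℕ) ≤ d := by have := i.2; omega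
      have := hmono hid
      linarith
  · intro x
    obtain ⟨j, hj', hx⟩ := hcov x
    exact ⟨⟨j, by omega⟩, comp (A j) (P j) x, ⟨x, hx, rfl⟩, ReflTransGen.refl⟩

end main

end Pool.Agent.Helper75.Apc
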