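import Mathlib

/-!
A counting form of the local lemma (Rosenfeld type induction) for the following situation.
Every point `x` has a finite set of relevant variables `Ctr x`, every variable `c` takes `L` values,
the variable `c` is dangerous for `x` if its value lies in the small set `Wd x c`.
Then one can choose all variables such that no point has `J` dangerous variables.
-/

set_option autoImplicit false

namespace Pool.Agent.Helper75.Apc

open Finset Function Classical

lemma filter_inst {α : Type*} (s : Finset α) (p : α → Prop) (i1 i2 : DecidablePred p) :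
    @filter α p i1 s = @filter α p i2 s := by
  have h : i1 = i2 := Subsingleton.elim _ _
  rw [h]

section single

variable {V : Type*} [Fintype V] {L : ℕ}

/-- one coordinate is independent of a predicate which does not look at it -/
lemma card_single (P : (V → Fin L) → Prop) (e : V) (W : Finset (Fin L))
    (hP : ∀ f k, P (update f e k) ↔ P f) :
    (univ.filter fun f : V → Fin L => P f ∧ f e ∈ W).card * L
      = (univ.filter fun f : V → Fin L => P f).card * W.card := by
  have h1 : (univ.filter fun f : V → Fin L => P f ∧ f e ∈ W).card * L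
      = ((univ.filter fun f : V → Fin L => P f ∧ f e ∈ W) ×ˢ (univ : Finset (Fin L))).card := by
    rw [card_product, card_univ, Fintype.card_fin]
  have h2 : (univ.filter fun f : V → Fin L => P f).card * W.card
      = ((univ.filter fun f : V → Fin L => P f) ×ˢ W).card := by
    rw [card_product]
  rw [h1, h2]
  refine card_bij' (fun p _ => (update p.1 e p.2, p.1 e)) (fun p _ => (update p.1 e p.2, p.1 e))
    ?_ ?_ ?_ ?_
  · rintro ⟨f, k⟩ h
    simp only [mem_product, mem_filter, mem_univ, true_and, and_true] at h ⊢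
    exact ⟨(hP f k).2 h.1, h.2⟩
  · rintro ⟨f, k⟩ h
    simp only [mem_product, mem_filter, mem_univ, true_and, and_true] at h ⊢
    refine ⟨(hP f k).2 h.1, ?_⟩
    simpa using h.2
  · rintro ⟨f, k⟩ h
    simp
  · rintro ⟨f, k⟩ h
    simp

/-- several coordinates -/
lemma card_multi (P : (V → Fin L) → Prop) (W : V → Finset (Fin L)) (E : Finset V)
    (hP : ∀ f k, ∀ e ∈ E, P (update f e k) ↔ P f) :
    (univ.filter fun f : V → Fin L => P f ∧ ∀ e ∈ E, f e ∈ W e).card * L ^ E.card
      = (univ.filter fun f : V → Fin L => P f).card * ∏ e ∈ E, (W e).card := by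
  induction E using Finset.induction_on with
  | empty => simp
  | insert e E he ih =>
    have ih' := ih (fun f k e' he' => hP f k e' (mem_insert_of_mem he'))
    have hs := card_single (fun f : V → Fin L => P f ∧ ∀ e' ∈ E, f e' ∈ W e') e (W e) (by
      intro f k
      rw [hP f k e (mem_insert_self e E)]
      refine and_congr_right fun _ => ?_
      refine forall₂_congr fun e' he' => ?_
      rw [update_of_ne]
      rintro rfl
      exact he he')
    have hset : (univ.filter fun f : V → Fin L => P f ∧ ∀ e' ∈ insert e E, f e' ∈ W e')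
        = (univ.filter fun f : V → Fin L => (P f ∧ ∀ e' ∈ E, f e' ∈ W e') ∧ f e ∈ W e) := by
      ext f
      simp only [mem_filter, mem_univ, true_and, mem_insert, forall_eq_or_imp]
      tauto
    rw [hset, card_insert_of_notMem he, prod_insert he, pow_succ]
    calc _ = ((univ.filter fun f : V → Fin L => (P f ∧ ∀ e' ∈ E, f e' ∈ W e') ∧ f e ∈ W e).card * L)
          * L ^ E.card := by ring
      _ = ((univ.filter fun f : V → Fin L => P f ∧ ∀ e' ∈ E, f e' ∈ W e').card * L ^ E.card)
          * (W e).card := by
            have hs2 : (univ.filter fun f : V → Fin L =>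
                (P f ∧ ∀ e' ∈ E, f e' ∈ W e') ∧ f e ∈ W e).card * L
                = (univ.filter fun f : V → Fin L => P f ∧ ∀ e' ∈ E, f e' ∈ W e').card
                  * (W e).card := by
              exact (congrArg (fun t => card t * L) (filter_inst _ _ _ _)).trans (hs.trans
                (congrArg (fun t => card t * (W e).card) (filter_inst _ _ _ _)))
            rw [hs2]; ring
      _ = _ := by rw [ih']; ring

end single

section local_lemma

variable {V X : Type*} [Fintype V] {L : ℕ}

/-- assignments without a point having `J` dangerous variables among `D` -/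
noncomputable def val (Ctr : X → Finset V) (Wd : X → V → Finset (Fin L)) (J : ℕ) (D : Finset V) :
    Finset (V → Fin L) :=
  univ.filter fun f => ∀ x, ((Ctr x ∩ D).filter fun c => f c ∈ Wd x c).card < J

lemma val_mono (Ctr : X → Finset V) (Wd : X → V → Finset (Fin L)) (J : ℕ) {D D' : Finset V}
    (h : D' ⊆ D) : val Ctr Wd J D ⊆ val Ctr Wd J D' := by
  intro f hf
  simp only [val, mem_filter, mem_univ, true_and] at hf ⊢
  intro x
  refine lt_of_le_of_lt (card_le_card ?_) (hf x)
  exact filter_subset_filter _ (inter_subset_inter_left h)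

lemma val_step (Ctr : X → Finset V) (Wd : X → V → Finset (Fin L)) (Pts : V → Finset X)
    (J Q I w : ℕ) (hJ : 0 < J) (hQ : ∀ x, (Ctr x).card ≤ Q) (hI : ∀ c, (Pts c).card ≤ I)
    (hPts : ∀ x, ∀ c ∈ Ctr x, x ∈ Pts c) (hw : ∀ x c, (Wd x c).card ≤ w) (hL : 0 < L)
    (hnum : I * Q ^ (J - 1) * w ^ J * 2 ^ J ≤ L ^ J) :
    ∀ n : ℕ, ∀ D : Finset V, D.card = n → ∀ c ∈ D,
      (val Ctr Wd J (D.erase c)).card ≤ 2 * (val Ctr Wd J D).card := by
  intro n
  induction n using Nat.strong_induction_on with
  | _ n ih =>
  intro D hD c hc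
  -- iterated induction hypothesis
  have hiter : ∀ (E D' : Finset V), D'.card < n → E ⊆ D' →
      (val Ctr Wd J (D' \ E)).card ≤ 2 ^ E.card * (val Ctr Wd J D').card := by
    intro E
    induction E using Finset.induction_on with
    | empty => intro D' _ _; simp
    | insert e E he ihE =>
      intro D' hD' hE
      have heD' : e ∈ D' := hE (mem_insert_self e E)
      have hED' : E ⊆ D'.erase e := by
        intro z hz
        refine mem_erase.2 ⟨?_, hE (mem_insert_of_mem hz)⟩
        rintro rfl
        exact he hz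
      have hcard : (D'.erase e).card < n := lt_of_le_of_lt (card_le_card (erase_subset _ _)) hD'
      have h1 := ihE (D'.erase e) hcard hED'
      have h2 := ih D'.card hD' D' rfl e heD'
      have hset : D' \ insert e E = (D'.erase e) \ E := by
        ext z; simp only [mem_sdiff, mem_insert, mem_erase]; tauto
      rw [hset, card_insert_of_notMem he, pow_succ]
      calc _ ≤ 2 ^ E.card * (val Ctr Wd J (D'.erase e)).card := h1
        _ ≤ 2 ^ E.card * (2 * (val Ctr Wd J D').card) := Nat.mul_le_mul_left _ h2
        _ = _ := by ring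
  set N' := (val Ctr Wd J (D.erase c)).card with hN'
  -- the bad assignments
  set bad := val Ctr Wd J (D.erase c) \ val Ctr Wd J D with hbad
  set fam : Finset (Σ _ : X, Finset V) :=
    (Pts c).sigma (fun x => ((Ctr x).powersetCard (J - 1)).filter (fun E => c ∉ E ∧ E ⊆ D)) with hfam
  let piece : (Σ _ : X, Finset V) → Finset (V → Fin L) := fun p =>
    univ.filter fun f => f ∈ val Ctr Wd J (D \ insert c p.2) ∧ ∀ e ∈ insert c p.2, f e ∈ Wd p.1 e
  have hsub : bad ⊆ fam.biUnion piece := by
    intro f hf
    rw [hbad, mem_sdiff] at hf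
    obtain ⟨hf1, hf2⟩ := hf
    have hf1' : ∀ x, ((Ctr x ∩ D.erase c).filter fun c => f c ∈ Wd x c).card < J := by
      simpa [val] using hf1
    have hf2' : ∃ x, J ≤ ((Ctr x ∩ D).filter fun c => f c ∈ Wd x c).card := by
      by_contra hcon
      push Not at hcon
      exact hf2 (by simpa [val] using hcon)
    obtain ⟨x, hx⟩ := hf2'
    set A := (Ctr x ∩ D).filter fun c => f c ∈ Wd x c with hA
    have hAer : A.erase c = (Ctr x ∩ D.erase c).filter fun c => f c ∈ Wd x c := by
      ext z
      simp only [hA, mem_erase, mem_filter, mem_inter]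
      tauto
    have hcA : c ∈ A := by
      by_contra hcA
      have := hf1' x
      rw [← hAer, erase_eq_of_notMem hcA] at this
      omega
    have hcardA : (A.erase c).card = J - 1 := by
      have h3 := hf1' x
      rw [← hAer] at h3
      have h4 := card_erase_of_mem hcA
      omega
    have hAsub : A ⊆ Ctr x ∩ D := filter_subset _ _
    rw [mem_biUnion]
    refine ⟨⟨x, A.erase c⟩, ?_, ?_⟩
    · simp only [hfam, mem_sigma, mem_filter, mem_powersetCard]
      refine ⟨hPts x c (mem_inter.1 (hAsub hcA)).1, ⟨?_, hcardA⟩, notMem_erase c A, ?_⟩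
      · intro z hz
        exact (mem_inter.1 (hAsub (mem_of_mem_erase hz))).1
      · intro z hz
        exact (mem_inter.1 (hAsub (mem_of_mem_erase hz))).2
    · simp only [piece, mem_filter, mem_univ, true_and, insert_erase hcA]
      refine ⟨?_, ?_⟩
      · refine val_mono Ctr Wd J ?_ hf1
        intro z hz
        rw [mem_sdiff] at hz
        refine mem_erase.2 ⟨?_, hz.1⟩
        rintro rfl
        exact hz.2 hcA
      · intro e he
        exact (mem_filter.1 he).2
  -- size of a piece
  have hpiece : ∀ p ∈ fam, (piece p).card * L ^ J ≤ 2 ^ (J - 1) * N' * w ^ J := by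
    rintro ⟨x, E⟩ hp
    simp only [hfam, mem_sigma, mem_filter, mem_powersetCard] at hp
    obtain ⟨hxc, ⟨hEx, hEc⟩, hcE, hED⟩ := hp
    have hcardins : (insert c E).card = J := by
      rw [card_insert_of_notMem hcE, hEc]; omega
    have hm := card_multi (fun f : V → Fin L => f ∈ val Ctr Wd J (D \ insert c E)) (Wd x)
      (insert c E) (by
        intro f k e he
        simp only [val, mem_filter, mem_univ, true_and]
        refine forall_congr' fun y => ?_
        have : (Ctr y ∩ (D \ insert c E)).filter (fun c => update f e k c ∈ Wd y c)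
            = (Ctr y ∩ (D \ insert c E)).filter (fun c => f c ∈ Wd y c) := by
          refine filter_congr fun z hz => ?_
          rw [update_of_ne]
          rintro rfl
          rw [mem_inter, mem_sdiff] at hz
          exact hz.2.2 he
        rw [this])
    have hfil : (univ.filter fun f : V → Fin L => f ∈ val Ctr Wd J (D \ insert c E))
        = val Ctr Wd J (D \ insert c E) := by
      ext f; simp
    have hm2 : (piece ⟨x, E⟩).card * L ^ J
        = (val Ctr Wd J (D \ insert c E)).card * ∏ e ∈ insert c E, (Wd x e).card := by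
      rw [hcardins] at hm
      refine Eq.trans ?_ (hm.trans ?_)
      · exact congrArg (fun t => card t * L ^ J) (filter_inst _ _ _ _)
      · refine congrArg (fun t => card t * ∏ e ∈ insert c E, (Wd x e).card) ?_
        exact (filter_inst _ _ _ _).trans hfil
    have hprod : ∏ e ∈ insert c E, (Wd x e).card ≤ w ^ J := by
      calc ∏ e ∈ insert c E, (Wd x e).card ≤ ∏ _e ∈ insert c E, w :=
            prod_le_prod' fun e _ => hw x e
        _ = w ^ J := by rw [prod_const, hcardins]
    have hDE : (val Ctr Wd J (D \ insert c E)).card ≤ 2 ^ (J - 1) * N' := by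
      have hlt : (D.erase c).card < n := by
        rw [card_erase_of_mem hc, hD]
        have : 0 < D.card := card_pos.2 ⟨c, hc⟩
        omega
      have hE' : E ⊆ D.erase c := by
        intro z hz
        refine mem_erase.2 ⟨?_, hED hz⟩
        rintro rfl
        exact hcE hz
      have h5 := hiter E (D.erase c) hlt hE'
      have hset : (D.erase c) \ E = D \ insert c E := by
        ext z; simp only [mem_sdiff, mem_insert, mem_erase]; tauto
      rw [hset, hEc] at h5
      exact h5
    calc (piece ⟨x, E⟩).card * L ^ J = _ := hm2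
      _ ≤ (2 ^ (J - 1) * N') * w ^ J := Nat.mul_le_mul hDE hprod
  -- number of pieces
  have hfamcard : fam.card ≤ I * Q ^ (J - 1) := by
    rw [hfam, card_sigma]
    calc ∑ x ∈ Pts c, (((Ctr x).powersetCard (J - 1)).filter (fun E => c ∉ E ∧ E ⊆ D)).card
        ≤ ∑ _x ∈ Pts c, Q ^ (J - 1) := by
          refine sum_le_sum fun x _ => ?_
          refine (card_le_card (filter_subset _ _)).trans ?_
          rw [card_powersetCard]
          refine (Nat.choose_le_pow _ _).trans ?_
          exact Nat.pow_le_pow_left (hQ x) _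
      _ = (Pts c).card * Q ^ (J - 1) := by rw [sum_const, smul_eq_mul]
      _ ≤ I * Q ^ (J - 1) := Nat.mul_le_mul_right _ (hI c)
  have hbadcard : 2 * bad.card * L ^ J ≤ L ^ J * N' := by
    have h6 : bad.card * L ^ J ≤ fam.card * (2 ^ (J - 1) * N' * w ^ J) := by
      calc bad.card * L ^ J ≤ (fam.biUnion piece).card * L ^ J :=
            Nat.mul_le_mul_right _ (card_le_card hsub)
        _ ≤ (∑ p ∈ fam, (piece p).card) * L ^ J := Nat.mul_le_mul_right _ card_biUnion_le
        _ = ∑ p ∈ fam, (piece p).card * L ^ J := by rw [sum_mul]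
        _ ≤ ∑ _p ∈ fam, (2 ^ (J - 1) * N' * w ^ J) := sum_le_sum hpiece
        _ = _ := by rw [sum_const, smul_eq_mul]
    have h2J : 2 ^ J = 2 * 2 ^ (J - 1) := by
      rw [← pow_succ']
      congr 1
      omega
    calc 2 * bad.card * L ^ J = 2 * (bad.card * L ^ J) := by ring
      _ ≤ 2 * (fam.card * (2 ^ (J - 1) * N' * w ^ J)) := Nat.mul_le_mul_left _ h6
      _ ≤ 2 * ((I * Q ^ (J - 1)) * (2 ^ (J - 1) * N' * w ^ J)) :=
          Nat.mul_le_mul_left _ (Nat.mul_le_mul_right _ hfamcard)
      _ = (I * Q ^ (J - 1) * w ^ J * 2 ^ J) * N' := by rw [h2J]; ring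
      _ ≤ L ^ J * N' := Nat.mul_le_mul_right _ hnum
  have hLJ : 0 < L ^ J := pow_pos hL J
  have hbad2 : 2 * bad.card ≤ N' := by
    have : L ^ J * (2 * bad.card) ≤ L ^ J * N' := by
      calc L ^ J * (2 * bad.card) = 2 * bad.card * L ^ J := by ring
        _ ≤ _ := hbadcard
    exact Nat.le_of_mul_le_mul_left this hLJ
  have hsplit : bad.card + (val Ctr Wd J D).card = N' := by
    rw [hbad]
    exact card_sdiff_add_card_eq_card (val_mono Ctr Wd J (erase_subset c D))
  omega

/-- finite version of the local lemma -/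
lemma exists_finite (Ctr : X → Finset V) (Wd : X → V → Finset (Fin L)) (Pts : V → Finset X)
    (J Q I w : ℕ) (hJ : 0 < J) (hQ : ∀ x, (Ctr x).card ≤ Q) (hI : ∀ c, (Pts c).card ≤ I)
    (hPts : ∀ x, ∀ c ∈ Ctr x, x ∈ Pts c) (hw : ∀ x c, (Wd x c).card ≤ w) (hL : 0 < L)
    (hnum : I * Q ^ (J - 1) * w ^ J * 2 ^ J ≤ L ^ J) :
    ∃ f : V → Fin L, ∀ x, ((Ctr x).filter fun c => f c ∈ Wd x c).card < J := by
  have hstep := val_step Ctr Wd Pts J Q I w hJ hQ hI hPts hw hL hnum
  have hpos : ∀ D : Finset V, 0 < (val Ctr Wd J D).card := by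
    intro D
    induction D using Finset.induction_on with
    | empty =>
      refine card_pos.2 ⟨fun _ => ⟨0, hL⟩, ?_⟩
      simp only [val, mem_filter, mem_univ, true_and, inter_empty, filter_empty, card_empty]
      exact fun _ => hJ
    | insert e E he ih =>
      have h := hstep _ (insert e E) rfl e (mem_insert_self e E)
      rw [erase_insert he] at h
      omega
  obtain ⟨f, hf⟩ := card_pos.1 (hpos univ)
  refine ⟨f, ?_⟩
  simpa [val] using hf

end local_lemma

/-- the local lemma for infinitely many variables -/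
theorem exists_assignment {V X : Type*} {L : ℕ}
    (Ctr : X → Finset V) (Wd : X → V → Finset (Fin L)) (Pts : V → Finset X)
    (J Q I w : ℕ) (hJ : 0 < J) (hQ : ∀ x, (Ctr x).card ≤ Q) (hI : ∀ c, (Pts c).card ≤ I)
    (hPts : ∀ x, ∀ c ∈ Ctr x, x ∈ Pts c) (hw : ∀ x c, (Wd x c).card ≤ w) (hL : 0 < L)
    (hnum : I * Q ^ (J - 1) * w ^ J * 2 ^ J ≤ L ^ J) :
    ∃ f : V → Fin L, ∀ x, ((Ctr x).filter fun c => f c ∈ Wd x c).card < J := by
  let K : X → Set (V → Fin L) := fun x => {f | ((Ctr x).filter fun c => f c ∈ Wd x c).card < J}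
  have hclosed : ∀ x, IsClosed (K x) := by
    intro x
    have hopen : ∀ A : Finset V, IsClopen {f : V → Fin L | ∀ c ∈ A, f c ∈ Wd x c} := by
      intro A
      have : {f : V → Fin L | ∀ c ∈ A, f c ∈ Wd x c}
          = ⋂ c ∈ A, (fun f : V → Fin L => f c) ⁻¹' (Wd x c : Set (Fin L)) := by
        ext f; simp
      rw [this]
      refine ⟨?_, ?_⟩
      · refine isClosed_biInter fun c _ => ?_
        exact IsClosed.preimage (continuous_apply c) (isClosed_discrete _)
      · refine isOpen_biInter_finset fun c _ => ?_
        exact IsOpen.preimage (continuous_apply c) (isOpen_discrete _)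
    have hK : (K x)ᶜ = ⋃ A ∈ ((Ctr x).powerset.filter fun A => J ≤ A.card),
        {f : V → Fin L | ∀ c ∈ A, f c ∈ Wd x c} := by
      ext f
      simp only [K, Set.mem_compl_iff, Set.mem_ofPred_eq, not_lt, Set.mem_iUnion, mem_filter,
        mem_powerset, exists_prop]
      constructor
      · intro h
        exact ⟨_, ⟨filter_subset _ _, h⟩, fun c hc => (mem_filter.1 hc).2⟩
      · rintro ⟨A, ⟨hA, hAJ⟩, hf⟩
        refine hAJ.trans (card_le_card fun c hc => ?_)
        exact mem_filter.2 ⟨hA hc, hf c hc⟩
    rw [← isOpen_compl_iff, hK]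
    exact isOpen_biUnion fun A _ => (hopen A).isOpen
  have hfin : ∀ u : Finset X, (Set.univ ∩ ⋂ x ∈ u, K x).Nonempty := by
    intro u
    let V0 : Finset V := u.biUnion Ctr
    obtain ⟨g, hg⟩ := exists_finite (V := {c // c ∈ V0}) (X := X)
      (fun x => (Ctr x).subtype (fun c => c ∈ V0)) (fun x c => Wd x c.1)
      (fun c => Pts c.1) J Q I w hJ
      (fun x => by
        rw [card_subtype]
        exact (card_le_card (filter_subset _ _)).trans (hQ x))
      (fun c => hI c.1)
      (fun x c hc => hPts x c.1 (by simpa using hc))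
      (fun x c => hw x c.1) hL hnum
    refine ⟨fun c => if h : c ∈ V0 then g ⟨c, h⟩ else ⟨0, hL⟩, Set.mem_univ _, ?_⟩
    simp only [Set.mem_iInter]
    intro x hx
    show ((Ctr x).filter fun c => (if h : c ∈ V0 then g ⟨c, h⟩ else ⟨0, hL⟩) ∈ Wd x c).card < J
    refine lt_of_le_of_lt ?_ (hg x)
    refine card_le_card_of_surjOn (fun c : {c // c ∈ V0} => c.1) ?_
    intro c hc
    simp only [coe_filter, Set.mem_ofPred_eq] at hc
    have hcV : c ∈ V0 := mem_biUnion.2 ⟨x, hx, hc.1⟩
    refine ⟨⟨c, hcV⟩, ?_, rfl⟩
    simp only [coe_filter, Set.mem_ofPred_eq, mem_subtype]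
    refine ⟨hc.1, ?_⟩
    have := hc.2
    rwa [dif_pos hcV] at this
  obtain ⟨f, -, hf⟩ := isCompact_univ.inter_iInter_nonempty K hclosed hfin
  exact ⟨f, fun x => Set.mem_iInter.1 hf x⟩

end Pool.Agent.Helper75.Apc
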